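import Pool.Agent.Y304.HG.Main

/-!
# Harmonic functions with arithmetically restricted values on percolation clusters

For Bernoulli bond percolation on `ℤ^d`, `d ≥ 2`, with any parameter `p ∈ (0,1)`, almost surely on
every open cluster every harmonic function is constant if its values are integers (the question
Q1, without growth bound), more generally if its values are algebraic integers, or algebraic
numbers the denominators of which are composed of finitely many primes, or elements of any
torsion free abelian group in which every nonzero element is divisible by finitely many primes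
only (for instance a finitely generated group). One null set of environments serves all groups.
-/

set_option autoImplicit false

open MeasureTheory

namespace Pool.Agent.Results.MP_79dc3a_pr.AlgebraicIntegers

/-- The edges of the lattice `ℤ^d`: the pair `(x, i)` is the edge between `x` and `x + e_i`. -/
abbrev Edge (d : ℕ) := (Fin d → ℤ) × Fin d

/-- The law of one edge: open (`true`) with probability `p`, closed (`false`) otherwise. -/
noncomputable def bernoulli (p : ℝ) : Measure Bool :=
  ENNReal.ofReal p • Measure.dirac true + ENNReal.ofReal (1 - p) • Measure.dirac false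

/-- Bernoulli bond percolation on `ℤ^d`: the edges are open independently with probability `p`. -/
noncomputable def percolation (d : ℕ) (p : ℝ) : Measure (Edge d → Bool) :=
  Measure.infinitePi fun _ => bernoulli p

/-- The graph of the open edges. -/
def openGraph {d : ℕ} (ω : Edge d → Bool) : SimpleGraph (Fin d → ℤ) :=
  SimpleGraph.fromRel fun x y => ∃ i : Fin d, ω (x, i) = true ∧ y = x + Pi.single i 1

open Classical in
/-- The function `u` on the cluster `C` (a connected component of the graph of the open edges),
with values in the abelian group `A`, is harmonic: at every `x ∈ C` the sum of `u y - u x` over the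
neighbours `y` of `x` in `C` vanishes. -/
def IsHarmonic {d : ℕ} {A : Type} [AddCommGroup A] (ω : Edge d → Bool)
    (C : (openGraph ω).ConnectedComponent) (u : C.supp → A) : Prop :=
  ∀ x : C.supp, ∑ᶠ y : C.supp, (if (openGraph ω).Adj x y then u y - u x else 0) = 0

theorem adj_iff {d : ℕ} (ω : Edge d → Bool) (x y : Fin d → ℤ) :
    (openGraph ω).Adj x y ↔ ∃ i : Fin d, (ω (x, i) = true ∧ y = x + Pi.single i 1) ∨
      (ω (y, i) = true ∧ x = y + Pi.single i 1) := by
  rw [openGraph, SimpleGraph.fromRel_adj]
  constructor
  · rintro ⟨_, ⟨i, h⟩ | ⟨i, h⟩⟩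
    · exact ⟨i, Or.inl h⟩
    · exact ⟨i, Or.inr h⟩
  · rintro ⟨i, h | h⟩
    · refine ⟨?_, Or.inl ⟨i, h⟩⟩
      intro hxy
      have h1 := congrFun h.2 i
      rw [← hxy] at h1
      simp at h1
    · refine ⟨?_, Or.inr ⟨i, h⟩⟩
      intro hxy
      have h1 := congrFun h.2 i
      rw [← hxy] at h1
      simp at h1

open Classical in
/-- the Laplacian as a finsum over the neighbours -/
theorem lap_eq {d : ℕ} {A : Type} [AddCommGroup A] (ω : Edge d → Bool) (u : (Fin d → ℤ) → A)
    (x : Fin d → ℤ) :
    ∑ᶠ y, (if (openGraph ω).Adj x y then u y - u x else 0) = Pool.Agent.Y304.HG.LapA ω u x := by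
  have hs : ∀ i j : Fin d, (Pi.single i 1 : Fin d → ℤ) = Pi.single j 1 → i = j := by
    intro i j h
    by_contra hne
    have := congrFun h i
    rw [Pi.single_eq_same, Pi.single_eq_of_ne hne] at this
    exact one_ne_zero this
  have hinj1 : Function.Injective fun i : Fin d => x + Pi.single i 1 := by
    intro i j h
    exact hs i j (add_left_cancel h)
  have hinj2 : Function.Injective fun i : Fin d => x - Pi.single i 1 := by
    intro i j h
    exact hs i j (sub_right_injective h)
  have hneg : ∀ i j : Fin d, x + Pi.single i 1 ≠ x - Pi.single j (1 : ℤ) := by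
    intro i j h
    have h1 := congrFun h i
    simp only [Pi.add_apply, Pi.sub_apply, Pi.single_eq_same] at h1
    by_cases hij : i = j
    · subst hij; simp only [Pi.single_eq_same] at h1; omega
    · rw [Pi.single_eq_of_ne hij] at h1; simp at h1
  set T1 := (Finset.univ : Finset (Fin d)).image fun i => x + Pi.single i 1 with hT1
  set T2 := (Finset.univ : Finset (Fin d)).image fun i => x - Pi.single i (1 : ℤ) with hT2
  have hdisj : Disjoint T1 T2 := by
    rw [Finset.disjoint_left]
    intro a h1 h2
    rw [hT1, Finset.mem_image] at h1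
    rw [hT2, Finset.mem_image] at h2
    obtain ⟨i, -, rfl⟩ := h1
    obtain ⟨j, -, h⟩ := h2
    exact hneg i j h.symm
  rw [finsum_eq_sum_of_support_subset (s := T1 ∪ T2)]
  · rw [Finset.sum_union hdisj, hT1, hT2, Finset.sum_image (fun i _ j _ h => hinj1 h),
      Finset.sum_image (fun i _ j _ h => hinj2 h), ← Finset.sum_add_distrib]
    unfold Pool.Agent.Y304.HG.LapA
    refine Finset.sum_congr rfl fun i _ => ?_
    have h1 : (openGraph ω).Adj x (x + Pi.single i 1) ↔ ω (x, i) = true := by
      rw [adj_iff]
      constructor
      · rintro ⟨j, ⟨h, h'⟩ | ⟨h, h'⟩⟩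
        · rw [hs i j (add_left_cancel h')]; exact h
        · exfalso
          have : x + Pi.single i 1 = x - Pi.single j (1 : ℤ) := by
            rw [eq_sub_iff_add_eq]; exact h'.symm
          exact hneg i j this
      · intro h
        exact ⟨i, Or.inl ⟨h, rfl⟩⟩
    have h2 : (openGraph ω).Adj x (x - Pi.single i 1) ↔ ω (x - Pi.single i 1, i) = true := by
      rw [adj_iff]
      constructor
      · rintro ⟨j, ⟨h, h'⟩ | ⟨h, h'⟩⟩
        · exact absurd h'.symm (hneg j i)
        · have : x - Pi.single j (1 : ℤ) = x - Pi.single i 1 := by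
            rw [sub_eq_iff_eq_add]; exact h'
          rw [hs i j (sub_right_injective this).symm] at h ⊢
          exact h
      · intro h
        exact ⟨i, Or.inr ⟨h, by rw [sub_add_cancel]⟩⟩
    simp only [h1, h2]
  · intro y hy
    rw [Function.mem_support] at hy
    have hadj : (openGraph ω).Adj x y := by
      by_contra h
      exact hy (if_neg h)
    rw [adj_iff] at hadj
    rw [Finset.coe_union, Set.mem_union]
    obtain ⟨i, ⟨_, h⟩ | ⟨_, h⟩⟩ := hadj
    · left
      rw [hT1, Finset.mem_coe, Finset.mem_image]
      exact ⟨i, Finset.mem_univ i, h.symm⟩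
    · right
      rw [hT2, Finset.mem_coe, Finset.mem_image]
      exact ⟨i, Finset.mem_univ i, by rw [h, add_sub_cancel_right]⟩

/-- from the lattice to the clusters -/
theorem cluster {d : ℕ} {A : Type} [AddCommGroup A] (ω : Edge d → Bool)
    (H : ∀ u : (Fin d → ℤ) → A, (∀ x, Pool.Agent.Y304.HG.LapA ω u x = 0) →
      ∀ e : Edge d, ω e = true → u (Pool.Agent.TH974.IH.hd e) = u e.1)
    (C : (openGraph ω).ConnectedComponent) (u : C.supp → A) (hu : IsHarmonic ω C u) :
    ∀ x y : C.supp, u x = u y := by
  classical
  set u' : (Fin d → ℤ) → A := fun x => if h : x ∈ C.supp then u ⟨x, h⟩ else 0 with hu'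
  have hval : ∀ x : C.supp, u' x = u x := by
    intro x
    simp only [hu']
    rw [dif_pos x.2]
  have hadjC : ∀ x y, (openGraph ω).Adj x y → (x ∈ C.supp ↔ y ∈ C.supp) := by
    intro x y hxy
    exact C.mem_supp_congr_adj hxy
  have hharm : ∀ x, Pool.Agent.Y304.HG.LapA ω u' x = 0 := by
    intro x
    rw [← lap_eq]
    by_cases hx : x ∈ C.supp
    · have h1 := hu ⟨x, hx⟩
      have h2 : (∑ᶠ y : C.supp, (if (openGraph ω).Adj x y then u y - u ⟨x, hx⟩ else 0)) =
          ∑ᶠ y : C.supp, (fun y => if (openGraph ω).Adj x y then u' y - u' x else 0)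
            (y : Fin d → ℤ) := by
        refine finsum_congr fun y => ?_
        simp only []
        rw [hval y, ← hval ⟨x, hx⟩]
      have h3 := finsum_set_coe_eq_finsum_mem
        (f := fun y => if (openGraph ω).Adj x y then u' y - u' x else 0) C.supp
      have h4 : (∑ᶠ y : C.supp, (fun y => if (openGraph ω).Adj x y then u' y - u' x else 0)
          (y : Fin d → ℤ)) = 0 := by rw [← h2]; exact h1
      refine Eq.trans ?_ (h3.symm.trans h4)
      refine finsum_congr fun y => ?_
      by_cases hy : y ∈ C.supp
      · rw [finsum_eq_if, if_pos hy]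
      · have : ¬ (openGraph ω).Adj x y := fun h => hy ((hadjC x y h).1 hx)
        rw [finsum_eq_if, if_neg hy, if_neg this]
    · refine finsum_eq_zero_of_forall_eq_zero fun y => ?_
      by_cases hxy : (openGraph ω).Adj x y
      · have hy : y ∉ C.supp := fun h => hx ((hadjC x y hxy).2 h)
        rw [if_pos hxy]
        simp only [hu']
        rw [dif_neg hx, dif_neg hy, sub_zero]
      · rw [if_neg hxy]
  have hedge := H u' hharm
  have hadj : ∀ x y, (openGraph ω).Adj x y → u' x = u' y := by
    intro x y hxy
    rw [adj_iff] at hxy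
    obtain ⟨i, ⟨h1, h2⟩ | ⟨h1, h2⟩⟩ := hxy
    · have := hedge (x, i) h1
      rw [h2]; exact this.symm
    · have := hedge (y, i) h1
      rw [h2]; exact this
  have hreach : ∀ x y, (openGraph ω).Reachable x y → u' x = u' y := by
    intro x y hxy
    obtain ⟨w⟩ := hxy
    induction w with
    | nil => rfl
    | cons h _ ih => exact (hadj _ _ h).trans ih
  intro x y
  rw [← hval x, ← hval y]
  refine hreach _ _ ?_
  have hx : (openGraph ω).connectedComponentMk x = C := x.2
  have hy : (openGraph ω).connectedComponentMk y = C := y.2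
  exact SimpleGraph.ConnectedComponent.eq.1 (hx.trans hy.symm)

open Classical in
/-- harmonicity is inherited by the values in a subgroup -/
theorem harm_sub {d : ℕ} {A : Type} [AddCommGroup A] {ω : Edge d → Bool} (G : AddSubgroup A)
    (C : (openGraph ω).ConnectedComponent) (u : C.supp → A) (hu : IsHarmonic ω C u)
    (h : ∀ x, u x ∈ G) : IsHarmonic ω C (fun x => (⟨u x, h x⟩ : G)) := by
  intro x
  apply Subtype.coe_injective
  have h1 := hu x
  have hfin : (Function.support fun y : C.supp =>
      (if (openGraph ω).Adj x y then (⟨u y, h y⟩ : G) - ⟨u x, h x⟩ else 0)).Finite := by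
    have hN : {y : Fin d → ℤ | (openGraph ω).Adj x y}.Finite := by
      refine ((Set.finite_range fun i : Fin d => (x : Fin d → ℤ) + Pi.single i 1).union
        (Set.finite_range fun i : Fin d => (x : Fin d → ℤ) - Pi.single i 1)).subset ?_
      intro y hy
      rw [Set.mem_setOf_eq, adj_iff] at hy
      obtain ⟨i, ⟨_, h⟩ | ⟨_, h⟩⟩ := hy
      · exact Or.inl ⟨i, h.symm⟩
      · refine Or.inr ⟨i, ?_⟩
        show (x : Fin d → ℤ) - Pi.single i 1 = y
        rw [h, add_sub_cancel_right]
    refine (hN.preimage (f := fun y : C.supp => (y : Fin d → ℤ))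
      (Subtype.coe_injective.injOn)).subset ?_
    intro y hy
    rw [Function.mem_support] at hy
    by_contra hc
    exact hy (if_neg hc)
  have h2 : ((∑ᶠ y : C.supp, (if (openGraph ω).Adj x y then (⟨u y, h y⟩ : G) - ⟨u x, h x⟩ else 0) :
      G) : A) = ∑ᶠ y : C.supp, G.subtype
        (if (openGraph ω).Adj x y then (⟨u y, h y⟩ : G) - ⟨u x, h x⟩ else 0) :=
    G.subtype.map_finsum hfin
  show ((∑ᶠ y : C.supp, (if (openGraph ω).Adj x y then (⟨u y, h y⟩ : G) - ⟨u x, h x⟩ else 0) :
      G) : A) = 0
  rw [h2, ← h1]
  refine finsum_congr fun y => ?_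
  split_ifs
  · rfl
  · rfl

open Classical in
/-- The function `u` satisfies the equation of a harmonic function at the vertex `x`. -/
def HarmonicAt {d : ℕ} (ω : Edge d → Bool) (u : (Fin d → ℤ) → ℤ) (x : Fin d → ℤ) : Prop :=
  ∑ᶠ y, (if (openGraph ω).Adj x y then u y - u x else 0) = 0

/-- **Theorem.** Let `d ≥ 2` and `0 < p < 1`. Almost surely, on every open cluster `C` of Bernoulli
bond percolation on `ℤ^d` with parameter `p` (in particular on the infinite cluster):

1. every integer-valued harmonic function is constant (the question, without growth bound);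
2. every harmonic function with values in a torsion free abelian group `A` is constant if every
   nonzero element of `A` is divisible by only finitely many primes (the null set does not depend
   on `A`);
3. every complex harmonic function with the property that `N^k u(x)` is an algebraic
   integer for some `k = k(x)`, `N ≥ 1` fixed, is constant: in particular (`N = 1`) harmonic
   functions whose values are algebraic integers, harmonic functions with values in `ℤ[1/N]`, and
   rational-valued harmonic functions the denominators of which are composed of finitely many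
   primes are constant;
4. every real or complex harmonic function whose values lie in a finitely generated group is
   constant.

Finite volume form: almost surely, for any two adjacent vertices `x`, `y` of the graph of the open
edges and every `M` there are a radius `R` and a prime `q > M` such that `q` divides `u y - u x` for
every integer-valued function `u` which is harmonic at the vertices of the box of radius `R` around
`x`. -/
theorem result (d : ℕ) (hd : 2 ≤ d) (p : ℝ) (hp0 : 0 < p) (hp1 : p < 1) :
    ∀ᵐ ω ∂(percolation d p), (∀ C : (openGraph ω).ConnectedComponent,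
      (∀ u : C.supp → ℤ, IsHarmonic ω C u → ∀ x y : C.supp, u x = u y) ∧
      (∀ (A : Type) [AddCommGroup A], (∀ (n : ℕ) (a : A), n ≠ 0 → n • a = 0 → a = 0) →
        (∀ a : A, a ≠ 0 → {q : ℕ | q.Prime ∧ ∃ b : A, q • b = a}.Finite) →
        ∀ u : C.supp → A, IsHarmonic ω C u → ∀ x y : C.supp, u x = u y) ∧
      (∀ N : ℕ, 1 ≤ N → ∀ u : C.supp → ℂ, IsHarmonic ω C u →
        (∀ x, ∃ k : ℕ, IsIntegral ℤ ((N : ℂ) ^ k * u x)) → ∀ x y : C.supp, u x = u y) ∧
      (∀ G : AddSubgroup ℂ, G.FG → ∀ u : C.supp → ℂ, IsHarmonic ω C u → (∀ x, u x ∈ G) →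
        ∀ x y : C.supp, u x = u y)) ∧
    ∀ x y : Fin d → ℤ, (openGraph ω).Adj x y → ∀ M : ℕ, ∃ R q : ℕ, M < q ∧ q.Prime ∧
      ∀ u : (Fin d → ℤ) → ℤ, (∀ z : Fin d → ℤ, (∀ i, |z i - x i| ≤ R) → HarmonicAt ω u z) →
        (q : ℤ) ∣ u y - u x := by
  classical
  obtain ⟨D, rfl⟩ : ∃ D, d = D + 1 := ⟨d - 1, by omega⟩
  have h := Pool.Agent.Y304.HG.main_A D (by omega) p hp0 hp1
  have h' := Pool.Agent.Y304.HG.main_loc D (by omega) p hp0 hp1
  have hperc : percolation (D + 1) p = Pool.Agent.TH974.IH.perc (D + 1) p := rfl
  rw [hperc]
  filter_upwards [h, h'] with ω hω hω'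
  refine ⟨?_, ?_⟩
  · intro C
    have key : ∀ (A : Type) [AddCommGroup A] [Module.IsTorsionFree ℤ A],
        (∀ a : A, a ≠ 0 → {q : ℕ | q.Prime ∧ ∃ b : A, q • b = a}.Finite) →
          ∀ u : C.supp → A, IsHarmonic ω C u → ∀ x y : C.supp, u x = u y := by
      intro A _ _ hP u hu
      exact cluster ω (hω A hP) C u hu
    refine ⟨?_, ?_, ?_, ?_⟩
    · exact key ℤ fun a ha => Pool.Agent.Y304.HG.fin_fg ha
    · intro A _ htf hP u hu
      have : Module.IsTorsionFree ℤ A := by
        constructor
        intro r hr a b hab
        have hr0 : r ≠ 0 := hr.ne_zero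
        have h1 : r • (a - b) = 0 := by
          have : r • a = r • b := hab
          rw [smul_sub, this, sub_self]
        have h2 : r.natAbs • (a - b) = 0 := by
          rcases Int.natAbs_eq r with hr' | hr'
          · rw [hr'] at h1
            rw [← natCast_zsmul]
            exact h1
          · rw [hr', neg_smul, neg_eq_zero] at h1
            rw [← natCast_zsmul]
            exact h1
        exact sub_eq_zero.1 (htf _ _ (Int.natAbs_ne_zero.2 hr0) h2)
      exact key A hP u hu
    · intro N hN u hu hint
      have h1 := harm_sub (Pool.Agent.Y304.HG.AlgN N) C u hu hint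
      intro x y
      have h2 := key (Pool.Agent.Y304.HG.AlgN N) (fun a ha => Pool.Agent.Y304.HG.fin_AlgN hN ha) _
        h1 x y
      exact congrArg Subtype.val h2
    · intro G hG u hu hint
      have h1 := harm_sub G C u hu hint
      have hfin : Module.Finite ℤ G :=
        Module.Finite.iff_addGroup_fg.2 ((AddGroup.fg_iff_addSubgroup_fg G).2 hG)
      intro x y
      have h2 := key G (fun a ha => Pool.Agent.Y304.HG.fin_fg ha) _ h1 x y
      exact congrArg Subtype.val h2
  · intro x y hxy M
    rw [adj_iff] at hxy
    obtain ⟨i, ⟨h1, h2⟩ | ⟨h1, h2⟩⟩ := hxy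
    · obtain ⟨R, q, hM, hq, hR⟩ := hω' (x, i) h1 M
      refine ⟨R, q, hM, hq, fun u hu => ?_⟩
      have h3 := hR u (fun z hz => by
        rw [← lap_eq]
        exact hu z hz)
      rw [h2]
      exact h3
    · obtain ⟨R, q, hM, hq, hR⟩ := hω' (y, i) h1 M
      refine ⟨R + 1, q, hM, hq, fun u hu => ?_⟩
      have h3 := hR u (fun z hz => by
        rw [← lap_eq]
        refine hu z fun j => ?_
        have h4 := hz j
        have h5 : z j - x j = (z j - y j) - (Pi.single i 1 : Fin (D + 1) → ℤ) j := by
          rw [h2, Pi.add_apply]; ring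
        have h6 : |(Pi.single i 1 : Fin (D + 1) → ℤ) j| ≤ 1 := by
          by_cases hj : j = i
          · subst hj; simp
          · rw [Pi.single_eq_of_ne hj]; simp
        rw [h5]
        refine (abs_sub _ _).trans ?_
        push_cast
        have h7 : |z j - y j| ≤ (R : ℤ) := h4
        linarith)
      have h8 : (q : ℤ) ∣ u x - u y := by
        rw [h2]
        exact h3
      rw [← neg_sub]
      exact h8.neg_right

end Pool.Agent.Results.MP_79dc3a_pr.AlgebraicIntegers
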